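import Pool.Graph.R_seed8.Helper461.E2.Final

set_option autoImplicit false

open MeasureTheory

namespace Pool.Agent.Results.MP_0b5bfa_lc.FreeActionCounterexample

/-- The equivalence relation `E₂` on Cantor space. -/
def E2 (x y : ℕ → Bool) : Prop :=
  Summable (fun n : ℕ => if x n = y n then (0 : ℝ) else (1 : ℝ) / ((n : ℝ) + 1))

/-- The equivalence relation `E₀` on Cantor space. -/
def E0 (x y : ℕ → Bool) : Prop := ∃ N : ℕ, ∀ n : ℕ, N ≤ n → x n = y n

/-- `E` is Borel reducible to `F`. -/
def BorelReducible {X Z : Type} [MeasurableSpace X] [MeasurableSpace Z] (E : X → X → Prop)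
    (F : Z → Z → Prop) : Prop :=
  ∃ f : X → Z, Measurable f ∧ ∀ x y : X, E x y ↔ F (f x) (f y)

/-- `E` is reducible to `F` by a continuous map. -/
def ContinuouslyReducible {X Z : Type} [TopologicalSpace X] [TopologicalSpace Z]
    (E : X → X → Prop) (F : Z → Z → Prop) : Prop :=
  ∃ f : X → Z, Continuous f ∧ ∀ x y : X, E x y ↔ F (f x) (f y)

/-- The orbit equivalence relation of the action of the free group of rank two in which the two
free generators act by the permutations `T false` and `T true`. -/
def OrbitRel {Y : Type} (T : Bool → Equiv.Perm Y) (x y : Y) : Prop :=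
  ∃ γ : FreeGroup Bool, FreeGroup.lift T γ x = y

/-- The action is free. -/
def FreeAction {Y : Type} (T : Bool → Equiv.Perm Y) : Prop :=
  ∀ (γ : FreeGroup Bool) (x : Y), FreeGroup.lift T γ x = x → γ = 1

/-- The action is profinite: countably many continuous maps `r k` with finite range separate the
points, and `r k (T s x)` is determined by `r k x`. -/
def Profinite {Y : Type} [TopologicalSpace Y] (T : Bool → Equiv.Perm Y) : Prop :=
  ∃ r : ℕ → Y → ℕ, (∀ k, Continuous (r k) ∧ (Set.range (r k)).Finite) ∧
    (∀ x y, (∀ k, r k x = r k y) → x = y) ∧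
    ∀ (k : ℕ) (s : Bool) (x y : Y), r k x = r k y → r k (T s x) = r k (T s y)

open Pool.Agent.Helper461.E2

instance topV (k : ℕ) : TopologicalSpace (V k) := ⊥
instance discV (k : ℕ) : DiscreteTopology (V k) := ⟨rfl⟩

theorem continuous_res : ∀ k : ℕ, Continuous (res k)
  | 0 => continuous_const
  | k + 1 => by
    refine continuous_discrete_rng.2 fun v => ?_
    obtain ⟨p, u⟩ : (V k × Bool → Bool) × V k := v
    have : res (k + 1) ⁻¹' {(p, u)} = (fun x : Y => x k) ⁻¹' {p} ∩ res k ⁻¹' {u} := by
      ext x
      exact Prod.ext_iff
    exact (congrArg IsOpen this).mpr (((isOpen_discrete {p}).preimage (continuous_apply k)).inter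
      ((isOpen_discrete {u}).preimage (continuous_res k)))

theorem continuous_flip (c : (k : ℕ) → V k → V k × Bool) :
    Continuous fun (x : Y) (k : ℕ) => flip (x k) (c k (res k x)) := by
  refine continuous_pi fun k => continuous_pi fun e => ?_
  have h1 : Continuous fun x : Y => (x k e, res k x) :=
    ((continuous_apply e).comp (continuous_apply k)).prodMk (continuous_res k)
  have h2 : Continuous fun z : Bool × V k => xor z.1 (eqb e (c k z.2)) :=
    continuous_of_discreteTopology
  exact h2.comp h1

theorem continuous_T0 (s : Bool) : Continuous (TT s) := continuous_flip fun _ v => (v, s)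

theorem continuous_T1 (s : Bool) : Continuous (TT s).symm :=
  continuous_flip fun k v => ((tk k s).symm v, s)

theorem profinite : Profinite TT := by
  choose n e using fun k : ℕ => Finite.exists_equiv_fin (V k)
  refine ⟨fun k x => ((e k).some (res k x) : ℕ), fun k => ⟨?_, ?_⟩, fun x y h => ?_,
    fun k s x y h => ?_⟩
  · exact (continuous_of_discreteTopology (f := fun v : V k => ((e k).some v : ℕ))).comp
      (continuous_res k)
  · exact (Set.finite_lt_nat (n k)).subset (by rintro _ ⟨x, rfl⟩; exact ((e k).some _).2)
  · exact res_inj fun k => (e k).some.injective (Fin.ext (h k))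
  · have h1 : res k x = res k y := (e k).some.injective (Fin.ext h)
    have h2 : ∀ z, res k (TT s z) = tk k s (res k z) := fun z => res_T0 s z k
    show ((e k).some (res k (TT s x)) : ℕ) = ((e k).some (res k (TT s y)) : ℕ)
    rw [h2, h2, h1]

theorem le_E2' : ContinuouslyReducible (OrbitRel TT) E2 := by
  obtain ⟨Φ, h1, h2, h3⟩ := coding (fun k => V k × Bool) (fun k => V k)
  refine ⟨fun x => Φ x (q x), ?_, ?_⟩
  · refine continuous_pi fun n => ?_
    rcases h1 n with h | ⟨k, a, h⟩ | ⟨k, v, h⟩
    · simp only [h]
      exact continuous_const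
    · simp only [h]
      exact (continuous_apply a).comp (continuous_apply k)
    · simp only [h]
      have hq : (fun x : Y => q x k v) =
          (fun z : V (k + 1) => xor (bd (tk k) z.1 v) (eqb v z.2)) ∘ res (k + 1) := rfl
      rw [hq]
      exact continuous_of_discreteTopology.comp (continuous_res (k + 1))
  · intro x y
    constructor
    · rintro ⟨γ, rfl⟩
      rw [lift_act]
      change Har _ _
      induction γ.toWord with
      | nil => exact har_refl _
      | cons l w ih =>
        refine har_trans ih ?_
        have hq : q (act TT w x) = q (act TT (l :: w) x) := by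
          funext k v
          exact (q_step l (act TT w x) k v).symm
        change Har (Φ (act TT w x) (q (act TT w x))) (Φ (act TT (l :: w) x)
          (q (act TT (l :: w) x)))
        rw [hq]
        exact h2 _ _ _ fun k => step_ncard l (act TT w x) k
    · intro hs
      obtain ⟨K, hK⟩ := h3 _ _ _ _ hs
      exact orbit_of_close x y K hK

/-- A free, profinite, probability measure preserving action of the free group of rank two whose
orbit equivalence relation continuously reduces to `E₂`, but is neither Borel reducible to `E₀`
nor above `E₂`. -/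
theorem result : ∃ (Y : Type) (_ : TopologicalSpace Y) (_ : MeasurableSpace Y) (_ : BorelSpace Y)
    (μ : Measure Y) (T : Bool → Equiv.Perm Y),
    CompactSpace Y ∧ PolishSpace Y ∧ TotallyDisconnectedSpace Y ∧ IsProbabilityMeasure μ ∧
    (∀ s, Continuous (T s) ∧ Continuous (T s).symm ∧ MeasurePreserving (T s) μ μ) ∧
    FreeAction T ∧ Profinite T ∧ ContinuouslyReducible (OrbitRel T) E2 ∧
    ¬ BorelReducible (OrbitRel T) E0 ∧ ¬ BorelReducible E2 (OrbitRel T) :=
  ⟨Y, inferInstance, inferInstance, inferInstance, mu, TT, inferInstance, inferInstance,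
    inferInstance, inferInstance, fun s => ⟨continuous_T0 s, continuous_T1 s, mp_TT s⟩,
    free_TT, profinite, le_E2', not_E0, not_E2_le⟩

end Pool.Agent.Results.MP_0b5bfa_lc.FreeActionCounterexample
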